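import Pool.Agent.COV.StmtsA

set_option autoImplicit false

/-!
# Row GPD of squad COV: a derivation applied to the coefficients of a polynomial
-/

namespace Pool.Agent.COV.H72

open Polynomial

lemma coeff_pd {k : Type} [Field k] [Algebra ℚ k] (δ : Derivation ℚ k k) (P : k[X]) (n : ℕ) :
    (pd δ P).coeff n = δ (P.coeff n) := by
  unfold pd
  rw [Polynomial.sum_def, finsetSum_coeff]
  simp only [coeff_C_mul, coeff_X_pow, mul_ite, mul_one, mul_zero]
  rw [Finset.sum_ite_eq]
  split_ifs with h
  · rfl
  · rw [notMem_support_iff.mp h, map_zero]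

theorem gpd : GpdStmt := by
  intro k _ _ δ P Q
  refine ⟨coeff_pd δ P, ?_, ?_, ?_, ?_, ?_⟩
  · ext n
    simp only [coeff_pd, coeff_add, map_add]
  · ext n
    simp only [coeff_pd, coeff_sub, map_sub]
  · ext n
    simp only [coeff_pd, coeff_add, coeff_mul, map_sum]
    rw [← Finset.sum_add_distrib]
    refine Finset.sum_congr rfl fun x _ => ?_
    rw [Derivation.leibniz]
    simp only [smul_eq_mul]
    ring
  · ext n
    simp only [coeff_pd, coeff_derivative, Derivation.leibniz, smul_eq_mul]
    have h : δ ((n : k) + 1) = 0 := by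
      rw [map_add, Derivation.map_natCast, Derivation.map_one_eq_zero, add_zero]
    rw [h]
    ring
  · intro c hc
    ext n
    rw [coeff_pd, coeff_C]
    split_ifs with h
    · simpa using hc
    · simp

end Pool.Agent.COV.H72
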