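import Pool.Agent.COV.StmtsA
import Mathlib.RingTheory.Polynomial.Wronskian

set_option autoImplicit false

/-!
# Row GWR of squad COV: the differential of a map to an elliptic curve
-/

namespace Pool.Agent.COV.H72

open Polynomial

variable {k : Type} [Field k]

lemma wr_eq (P Q : k[X]) : wr P Q = - wronskian P Q := by
  unfold wr wronskian
  ring

lemma natDegree_wr {P Q : k[X]} (h : wr P Q ≠ 0) :
    (wr P Q).natDegree < P.natDegree + Q.natDegree := by
  rw [wr_eq, natDegree_neg]
  refine natDegree_wronskian_lt_add fun h0 => h ?_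
  rw [wr_eq, h0, neg_zero]

lemma wr_sub_left (P Q : k[X]) (c : k) : wr (P - C c * Q) Q = wr P Q := by
  unfold wr
  simp only [derivative_sub, derivative_mul, derivative_C, zero_mul, zero_add]
  ring

lemma wr_sub_one (P Q : k[X]) : wr (P - Q) Q = wr P Q := by
  unfold wr
  simp only [derivative_sub]
  ring

/-- a power of a prime dividing `A` divides the Wronskian, with the exponent lowered by one -/
lemma pow_dvd_wr_left {p A B : k[X]} {n : ℕ} (h : p ^ n ∣ A) : p ^ (n - 1) ∣ wr A B := by
  unfold wr
  refine dvd_sub ((pow_sub_one_dvd_derivative_of_pow_dvd h).mul_right _) ?_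
  exact ((pow_dvd_pow p (Nat.sub_le n 1)).trans h).mul_right _

lemma pow_dvd_wr_right {p A B : k[X]} {n : ℕ} (h : p ^ n ∣ B) : p ^ (n - 1) ∣ wr A B := by
  unfold wr
  refine dvd_sub ?_ ((pow_sub_one_dvd_derivative_of_pow_dvd h).mul_left _)
  exact ((pow_dvd_pow p (Nat.sub_le n 1)).trans h).mul_left _

/-- a prime power dividing a product of coprime factors divides one of them -/
lemma prime_pow_dvd {p A B : k[X]} (hp : Prime p) {n : ℕ} (h : p ^ n ∣ A * B)
    (hc : IsCoprime A B) : p ^ n ∣ A ∨ p ^ n ∣ B := by
  by_cases hA : p ∣ A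
  · left
    refine hp.pow_dvd_of_dvd_mul_right n (fun hB => ?_) h
    exact hp.not_isUnit (hc.isUnit_of_dvd' hA hB)
  · right
    exact hp.pow_dvd_of_dvd_mul_left n hA h

lemma cop_sub {P Q : k[X]} (h : IsCoprime P Q) (c : k) : IsCoprime (P - C c * Q) Q := by
  have := IsCoprime.add_mul_right_left h (- C c)
  rwa [neg_mul, ← sub_eq_add_neg] at this

lemma cop_sub_sub {P Q : k[X]} (h : IsCoprime P Q) {c d : k} (hcd : c ≠ d) :
    IsCoprime (P - C c * Q) (P - C d * Q) := by
  have h1 : IsCoprime (P - C c * Q) (C (c - d) * Q) := by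
    rw [isCoprime_mul_unit_left_right
      (isUnit_C.mpr (isUnit_iff_ne_zero.mpr (sub_ne_zero.mpr hcd)))]
    exact cop_sub h c
  have h2 : IsCoprime (P - C c * Q) (C (c - d) * Q + (P - C c * Q) * 1) :=
    IsCoprime.add_mul_left_right h1 1
  have e : C (c - d) * Q + (P - C c * Q) * 1 = P - C d * Q := by
    rw [C_sub]
    ring
  rwa [e] at h2

theorem gwr : GwrStmt := by
  intro k _ _ _ F P Q V j hF hsq hc hW hV hj0 hj1 heq
  -- the four factors are not zero
  have hF0 : F ≠ 0 := by
    rintro rfl
    simp at hF
  have hne : P * Q * (P - Q) * (P - C j * Q) ≠ 0 := by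
    rw [← heq]
    exact mul_ne_zero hF0 (pow_ne_zero 2 hV)
  have h4 : P - C j * Q ≠ 0 := right_ne_zero_of_mul hne
  have h3 : P - Q ≠ 0 := right_ne_zero_of_mul (left_ne_zero_of_mul hne)
  have h2 : Q ≠ 0 := right_ne_zero_of_mul (left_ne_zero_of_mul (left_ne_zero_of_mul hne))
  have h1 : P ≠ 0 := left_ne_zero_of_mul (left_ne_zero_of_mul (left_ne_zero_of_mul hne))
  -- coprimality
  have c12 : IsCoprime P Q := hc
  have c32 : IsCoprime (P - Q) Q := by
    have := cop_sub hc (1 : k)
    rwa [C_1, one_mul] at this
  have c42 : IsCoprime (P - C j * Q) Q := cop_sub hc j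
  have c13 : IsCoprime P (P - Q) := by
    have := cop_sub_sub hc (zero_ne_one : (0 : k) ≠ 1)
    rwa [C_0, zero_mul, sub_zero, C_1, one_mul] at this
  have c14 : IsCoprime P (P - C j * Q) := by
    have := cop_sub_sub hc (Ne.symm hj0)
    rwa [C_0, zero_mul, sub_zero] at this
  have c34 : IsCoprime (P - Q) (P - C j * Q) := by
    have := cop_sub_sub hc (Ne.symm hj1)
    rwa [C_1, one_mul] at this
  have cc1 : IsCoprime (P * Q) (P - Q) := IsCoprime.mul_left c13 c32.symm
  have cc2 : IsCoprime (P * Q * (P - Q)) (P - C j * Q) :=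
    IsCoprime.mul_left (IsCoprime.mul_left c14 c42.symm) c34
  -- V divides the Wronskian
  have hdvd : V ∣ wr P Q := by
    classical
    rw [(IsAlgClosed.splits V).dvd_iff_roots_le_roots hV hW, Multiset.le_iff_count]
    intro x
    rw [count_roots, count_roots]
    rcases Nat.eq_zero_or_pos (rootMultiplicity x V) with h0 | hpos
    · rw [h0]
      exact Nat.zero_le _
    rw [le_rootMultiplicity_iff hW]
    set b := rootMultiplicity x V with hb
    have hp : Prime (X - C x) := prime_X_sub_C x
    have hbV : (X - C x) ^ b ∣ V := pow_rootMultiplicity_dvd V x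
    have hbig : (X - C x) ^ (2 * b) ∣ P * Q * (P - Q) * (P - C j * Q) := by
      rw [← heq, mul_comm 2 b, pow_mul]
      exact (pow_dvd_pow_of_dvd hbV 2).mul_left F
    have hlow : (X - C x) ^ (2 * b - 1) ∣ wr P Q := by
      rcases prime_pow_dvd hp hbig cc2 with h | h
      · rcases prime_pow_dvd hp h cc1 with h | h
        · rcases prime_pow_dvd hp h c12 with h | h
          · exact pow_dvd_wr_left h
          · exact pow_dvd_wr_right h
        · rw [← wr_sub_one]
          exact pow_dvd_wr_left h
      · rw [← wr_sub_left P Q j]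
        exact pow_dvd_wr_left h
    exact (pow_dvd_pow _ (by omega)).trans hlow
  obtain ⟨s, hs⟩ := hdvd
  have hs0 : s ≠ 0 := by
    rintro rfl
    exact hW (by rw [hs, mul_zero])
  refine ⟨s, hs0, ?_, by rw [hs, mul_comm]⟩
  -- degrees
  have hdeg : (wr P Q).natDegree = V.natDegree + s.natDegree := by
    rw [hs, natDegree_mul hV hs0]
  have hsum : 6 + 2 * V.natDegree =
      P.natDegree + Q.natDegree + (P - Q).natDegree + (P - C j * Q).natDegree := by
    rw [← natDegree_mul h1 h2, ← natDegree_mul (mul_ne_zero h1 h2) h3,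
      ← natDegree_mul (mul_ne_zero (mul_ne_zero h1 h2) h3) h4, ← heq,
      natDegree_mul hF0 (pow_ne_zero 2 hV), natDegree_pow, hF]
  have hCj : (C j * Q).natDegree = Q.natDegree := natDegree_C_mul hj0
  have hb1 : (wr P Q).natDegree < P.natDegree + Q.natDegree := natDegree_wr hW
  rcases lt_trichotomy P.natDegree Q.natDegree with h | h | h
  · have e3 : (P - Q).natDegree = Q.natDegree := natDegree_sub_eq_right_of_natDegree_lt h
    have e4 : (P - C j * Q).natDegree = Q.natDegree := by
      rw [natDegree_sub_eq_right_of_natDegree_lt (by rw [hCj]; exact h), hCj]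
    omega
  · by_cases h5 : (P - Q).natDegree < Q.natDegree
    · have e4 : (P - C j * Q).natDegree = Q.natDegree := by
        have e : P - C j * Q = (P - Q) + C (1 - j) * Q := by
          rw [C_sub, C_1]
          ring
        have hc1 : (C (1 - j) * Q).natDegree = Q.natDegree :=
          natDegree_C_mul (sub_ne_zero.mpr (Ne.symm hj1))
        rw [e, natDegree_add_eq_right_of_natDegree_lt (by rw [hc1]; exact h5), hc1]
      have hb2 : (wr P Q).natDegree < (P - Q).natDegree + Q.natDegree := by
        rw [← wr_sub_one]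
        exact natDegree_wr (by rw [wr_sub_one]; exact hW)
      omega
    · by_cases h6 : (P - C j * Q).natDegree < Q.natDegree
      · have e3 : (P - Q).natDegree = Q.natDegree := by
          have e : P - Q = (P - C j * Q) + C (j - 1) * Q := by
            rw [C_sub, C_1]
            ring
          have hc1 : (C (j - 1) * Q).natDegree = Q.natDegree :=
            natDegree_C_mul (sub_ne_zero.mpr hj1)
          rw [e, natDegree_add_eq_right_of_natDegree_lt (by rw [hc1]; exact h6), hc1]
        have hb2 : (wr P Q).natDegree < (P - C j * Q).natDegree + Q.natDegree := by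
          rw [← wr_sub_left P Q j]
          exact natDegree_wr (by rw [wr_sub_left]; exact hW)
        omega
      · -- all four factors have the same degree
        have hlq : Q.leadingCoeff ≠ 0 := leadingCoeff_ne_zero.mpr h2
        have hlp : P.leadingCoeff ≠ 0 := leadingCoeff_ne_zero.mpr h1
        set c := P.leadingCoeff / Q.leadingCoeff with hcdef
        have hc0 : c ≠ 0 := div_ne_zero hlp hlq
        have hCc : (C c * Q).natDegree = Q.natDegree := natDegree_C_mul hc0
        have hCc0 : C c * Q ≠ 0 := mul_ne_zero (C_ne_zero.mpr hc0) h2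
        have hA : P - C c * Q ≠ 0 := by
          intro h0
          apply hW
          rw [← wr_sub_left P Q c, h0]
          simp [wr]
        have hdl : (P - C c * Q).degree < P.degree := by
          refine degree_sub_lt_left ?_ h1 ?_
          · rw [degree_eq_natDegree h1, degree_eq_natDegree hCc0, hCc, h]
          · rw [leadingCoeff_mul, leadingCoeff_C, hcdef, div_mul_cancel₀ _ hlq]
        have hnl : (P - C c * Q).natDegree < P.natDegree := natDegree_lt_natDegree hA hdl
        have hb2 : (wr P Q).natDegree < (P - C c * Q).natDegree + Q.natDegree := by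
          rw [← wr_sub_left P Q c]
          exact natDegree_wr (by rw [wr_sub_left]; exact hW)
        omega
  · have e3 : (P - Q).natDegree = P.natDegree := natDegree_sub_eq_left_of_natDegree_lt h
    have e4 : (P - C j * Q).natDegree = P.natDegree := by
      rw [natDegree_sub_eq_left_of_natDegree_lt (by rw [hCj]; exact h)]
    omega

end Pool.Agent.COV.H72
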