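import Pool.Agent.COV.StmtsA

set_option autoImplicit false

/-!
# Row GSQ of squad COV: a sextic with algebraically independent coefficients is squarefree
-/

namespace Pool.Agent.COV.H72

open Polynomial

theorem gsq (hna : TTC.Na6Stmt) (hcr : TTC.Cr6Stmt) : GsqStmt := by
  intro L _ _ _ a ha
  have : CharZero L := algebraRat.charZero L
  have h6 : (6 : L) ≠ 0 := by norm_num
  have h0 : a 0 ≠ 0 := ha.ne_zero 0
  have hdeg : (TTC.sext a).natDegree = 6 := by
    unfold TTC.sext
    compute_degree!
  refine ⟨hdeg, ?_⟩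
  -- the discriminant as an integral polynomial in the coefficients
  have hX : TTC.d6 (fun i : Fin 7 => (MvPolynomial.X i : MvPolynomial (Fin 7) ℚ)) ≠ 0 := by
    intro hz
    set b : Fin 7 → L := fun i => if i = 0 then 1 else if i = 6 then -1 else 0 with hb
    have hb0 : b 0 = 1 := by simp [hb]
    have h1 := (hna (MvPolynomial (Fin 7) ℚ) L (MvPolynomial.aeval b).toRingHom
      (fun i : Fin 7 => MvPolynomial.X i)).2.1
    rw [hz, map_zero] at h1
    have e : (fun i : Fin 7 => (MvPolynomial.aeval b).toRingHom
        (MvPolynomial.X i : MvPolynomial (Fin 7) ℚ)) = b := by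
      funext i
      simp
    rw [e] at h1
    obtain ⟨θ, ht, ht'⟩ := (hcr L b h6 (by rw [hb0]; exact one_ne_zero)).1.mp h1
    have hs : TTC.sext b = X ^ 6 - 1 := by
      unfold TTC.sext
      simp [hb]
      ring
    rw [hs] at ht ht'
    simp at ht ht'
    rcases ht' with h5 | h5
    · exact absurd h5 (by norm_num)
    · rw [h5] at ht
      norm_num at ht
  have hd : TTC.d6 a ≠ 0 := by
    have h1 := (hna (MvPolynomial (Fin 7) ℚ) L (MvPolynomial.aeval a).toRingHom
      (fun i : Fin 7 => MvPolynomial.X i)).2.1
    have e : (fun i : Fin 7 => (MvPolynomial.aeval a).toRingHom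
        (MvPolynomial.X i : MvPolynomial (Fin 7) ℚ)) = a := by
      funext i
      simp
    rw [e] at h1
    rw [h1]
    intro hz
    apply hX
    apply ha
    rw [map_zero]
    exact hz
  -- no common root
  have hno : ∀ θ : L, ¬ ((TTC.sext a).eval θ = 0 ∧ (derivative (TTC.sext a)).eval θ = 0) :=
    fun θ h => hd ((hcr L a h6 h0).1.mpr ⟨θ, h⟩)
  have hsep : (TTC.sext a).Separable := by
    unfold Polynomial.Separable
    rw [Polynomial.isCoprime_iff_aeval_ne_zero_of_isAlgClosed L L]
    intro θ
    by_contra hcon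
    push Not at hcon
    exact hno θ (by simpa [Polynomial.coe_aeval_eq_eval] using hcon)
  exact hsep.squarefree

end Pool.Agent.COV.H72
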